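import Pool.Agent.Helper371.SFam0
import Pool.Agent.Helper371.SFam1
import Pool.Agent.Helper371.SFam3
import Pool.Agent.Helper371.SSmall
import Pool.Agent.Helper371.SLow3

set_option autoImplicit false

namespace Pool.Agent.Results.MP_a8a835_co.Diameters

open Pool.Agent.Helper371

/-- The set `D` of the diameters of the finite primitive cubic S-graphs is exactly the set of the
integers `n ≥ 5`. -/
theorem result : diameterSet = {n : ℕ | 5 ≤ n} := by
  ext n
  rw [Set.mem_ofPred_eq]
  constructor
  · rintro ⟨V, G, hV, h1, h2, h3, rfl⟩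
    exact five_le h2 h1 h3
  · intro hn
    obtain ⟨h, hh⟩ : ∃ h, n = 4*h ∨ n = 4*h + 1 ∨ n = 4*h + 2 ∨ n = 4*h + 3 := ⟨n / 4, by omega⟩
    rcases hh with rfl | rfl | rfl | rfl
    · have h1 := mem_even (2*h) (by omega)
      rwa [show 4*h = 2*(2*h) by ring]
    · by_cases h2 : 2 ≤ h
      · exact mem_one_mod_four h h2
      · obtain rfl : h = 1 := by omega
        exact mem_five
    · have h1 := mem_even (2*h + 1) (by omega)
      rwa [show 4*h + 2 = 2*(2*h + 1) by ring]
    · by_cases h2 : 2 ≤ h
      · exact mem_three_mod_four h h2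
      · obtain rfl : h = 1 := by omega
        exact mem_seven

end Pool.Agent.Results.MP_a8a835_co.Diameters
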